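import Pool.Agent.Helper7.BC.Final

/-! MP_52073a_co: Betti characters of Vietoris-Rips complexes of hypercubes, the top part of the
2-linear strand, for all `n` and all scales `r ≤ n - 2`. -/

namespace Pool.Agent.Results.MP_52073a_co.LinearStrand

open Finset Pool.Agent.Helper7.BC.Koszul

theorem result (k : Type*) [Field k] [CharZero k] (n r i : ℕ) (hn : r + 2 ≤ n)
    (hi : 2 + 2 * ∑ j ∈ range (n - r - 1), (n - 1).choose j ≤ i ∨ (i = 2 ∧ 2 * n < 3 * (r + 1))) :
    (∀ (σ : Equiv.Perm (Fin n)) (e : Fin n → Bool),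
      chi k n r i (i + 1) σ e = ((((univ.filter fun v => signed σ e v = v).card : ℤ) *
        (cyclePoly (subsetPerm σ (n - r - 1))).coeff i : ℤ) : k)) ∧
    Module.finrank k (Tor k n r i (i + 1)) =
      2 ^ n * (∑ j ∈ range (n - r), n.choose j).choose i :=
  Pool.Agent.Helper7.BC.final k n r i hn hi

end Pool.Agent.Results.MP_52073a_co.LinearStrand
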